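import Mathlib

/-!
# Division bimagmas of inverse semigroups: eight identities imply the inverse semigroup axioms

`l x y` is `x \ y` and `r x y` is `x / y`.
-/

namespace Pool.Agent.Q318.ISD

universe u

variable {S : Type u}

/-- The eight identities. Only `t1` and `t2` involve both operations. -/
structure Ax (l r : S → S → S) : Prop where
  t1 : ∀ x y z, l (r x y) z = r y (l z x)
  t2 : ∀ x, l (r x x) x = x
  i1 : ∀ x, r (r x x) (r x x) = r x x
  i2 : ∀ x, l (l x x) (l x x) = l x x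
  a1 : ∀ x y z w, r (r x (r y z)) w = r x (r w (r z y))
  a2 : ∀ x y z w, l w (l (l z y) x) = l (l (l y z) w) x
  c1 : ∀ x y, r (r x x) (r y y) = r (r y y) (r x x)
  c2 : ∀ x y, l (l x x) (l y y) = l (l y y) (l x x)

namespace Ax

variable {l r : S → S → S}

theorem L1 (H : Ax l r) (x : S) : r x (l x x) = x := by
  rw [← H.t1 x x x]; exact H.t2 x

theorem dual (H : Ax l r) : Ax (fun x y => r y x) (fun x y => l y x) where
  t1 := fun x y z => by
    show r z (l y x) = l (r x z) y
    rw [H.t1]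
  t2 := fun x => by
    show r x (l x x) = x
    exact H.L1 x
  i1 := fun x => H.i2 x
  i2 := fun x => H.i1 x
  a1 := fun x y z w => by
    show l w (l (l z y) x) = l (l (l y z) w) x
    exact H.a2 x y z w
  a2 := fun x y z w => by
    show r (r x (r y z)) w = r x (r w (r z y))
    exact H.a1 x y z w
  c1 := fun x y => by
    show l (l y y) (l x x) = l (l x x) (l y y)
    exact H.c2 y x
  c2 := fun x y => by
    show r (r y y) (r x x) = r (r x x) (r y y)
    exact H.c1 y x

end Ax

/-- The inverse. -/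
def iv (l r : S → S → S) (x : S) : S := l x (r x x)

namespace Ax

variable {l r : S → S → S}

theorem iv_eq (H : Ax l r) (x : S) : iv l r x = r (l x x) x := by
  have h := H.t1 x (l x x) (r x x)
  rw [H.L1 x, H.t2 x] at h
  exact h

/-- The inverse of the dual structure is the same. -/
theorem iv_dual (H : Ax l r) (x : S) : iv (fun x y => r y x) (fun x y => l y x) x = iv l r x := by
  rw [H.iv_eq x]; rfl

theorem L2 (H : Ax l r) (x : S) : l (iv l r x) (l x x) = x := by
  rw [H.iv_eq x, H.t1, H.i2, H.L1]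

theorem L3 (H : Ax l r) (x : S) : l (iv l r x) (iv l r x) = r x x := by
  have h := H.t1 (l x x) x (iv l r x)
  rw [← H.iv_eq x, H.L2 x] at h
  exact h

theorem L4 (H : Ax l r) (x : S) : r (r x x) (iv l r x) = x := by
  have h := H.dual.L2 x
  rw [H.iv_dual] at h
  exact h

theorem L5 (H : Ax l r) (x : S) : r (iv l r x) (iv l r x) = l x x := by
  have h := H.dual.L3 x
  rw [H.iv_dual] at h
  exact h

theorem iv_iv (H : Ax l r) (x : S) : iv l r (iv l r x) = x := by
  show l (iv l r x) (r (iv l r x) (iv l r x)) = x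
  rw [H.L5, H.L2]

theorem A2 (H : Ax l r) (x y w : S) : r (r x y) w = r x (r w (iv l r y)) := by
  have h := H.a1 x (r y y) (iv l r y) w
  rw [H.L4 y] at h
  have h2 : r (iv l r y) (r y y) = iv l r y := by
    have := H.L1 (iv l r y)
    rwa [H.L3 y] at this
  rwa [h2] at h

theorem A2' (H : Ax l r) (w y x : S) : l w (l y x) = l (l (iv l r y) w) x := by
  have h := H.dual.A2 x y w
  rw [H.iv_dual] at h
  exact h

theorem iv_e (H : Ax l r) (x : S) : iv l r (r x x) = r x x := by
  show l (r x x) (r (r x x) (r x x)) = r x x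
  rw [H.i1, ← H.L3 x, H.i2]

theorem iv_f (H : Ax l r) (x : S) : iv l r (l x x) = l x x := by
  have h := H.dual.iv_e x
  rw [H.iv_dual] at h
  exact h

theorem e_div (H : Ax l r) (x y : S) : r (r x y) (r x y) = r x (r x (l y y)) := by
  rw [H.A2 x y (r x y), H.A2 x y (iv l r y), H.L5]

theorem c1f (H : Ax l r) (x y : S) : r (l x x) (l y y) = r (l y y) (l x x) := by
  rw [← H.L5 x, ← H.L5 y]; exact H.c1 _ _

theorem T4 (H : Ax l r) (x y : S) : iv l r (r x y) = r y x := by
  show l (r x y) (r (r x y) (r x y)) = r y x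
  rw [H.t1, H.e_div]
  have h1 : l (r x (r x (l y y))) x = r x (l y y) := by
    rw [H.t1, H.A2 x (l y y) (l x x), H.iv_f, H.c1f x y]
    have h := H.A2 x (l x x) (l y y)
    rw [H.iv_f, H.L1] at h
    exact h.symm
  rw [h1]
  have h := H.A2 y (l y y) x
  rw [H.iv_f, H.L1] at h
  exact h.symm

theorem T4' (H : Ax l r) (y x : S) : iv l r (l y x) = l x y := by
  have h := H.dual.T4 x y
  rw [H.iv_dual] at h
  exact h

theorem assoc (H : Ax l r) (x y z : S) :
    r (r x (iv l r y)) (iv l r z) = r x (iv l r (r y (iv l r z))) := by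
  rw [H.T4, H.A2, H.iv_iv]

/-- `E e`: the element is `x / x` for some `x`. -/
def E (r : S → S → S) (e : S) : Prop := ∃ x, e = r x x

theorem E_r (H : Ax l r) {e : S} (he : E r e) : r e e = e := by
  obtain ⟨x, rfl⟩ := he; exact H.i1 x

theorem E_iv (H : Ax l r) {e : S} (he : E r e) : iv l r e = e := by
  obtain ⟨x, rfl⟩ := he; exact H.iv_e x

theorem E_l (H : Ax l r) {e : S} (he : E r e) : l e e = e := by
  obtain ⟨x, rfl⟩ := he; rw [← H.L3 x, H.i2]

theorem E_c1 (H : Ax l r) {e f : S} (he : E r e) (hf : E r f) : r e f = r f e := by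
  obtain ⟨x, rfl⟩ := he; obtain ⟨y, rfl⟩ := hf; exact H.c1 x y

theorem E_c2 (H : Ax l r) {e f : S} (he : E r e) (hf : E r f) : l e f = l f e := by
  obtain ⟨x, rfl⟩ := he; obtain ⟨y, rfl⟩ := hf
  rw [← H.L3 x, ← H.L3 y]; exact H.c2 _ _

theorem Q1 (H : Ax l r) {f : S} (hf : E r f) (z : S) :
    r f (iv l r z) = r (r z z) (iv l r (l f z)) := by
  have h1 : r f (iv l r z) = l (r (r z z) f) z := by
    rw [H.t1]; rfl
  rw [h1, H.E_c1 ⟨z, rfl⟩ hf, H.t1, H.T4']

theorem e_w (H : Ax l r) {f : S} (hf : E r f) (z : S) :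
    r (l f z) (l f z) = l f (r z z) := by
  have h1 : r (l f z) (l f z) = l (r z (l f z)) f := by rw [H.t1]
  have h2 : r z (l f z) = l (r z z) f := by rw [H.t1]
  rw [h1, h2]
  have h3 := H.A2' f (r z z) f
  rw [H.iv_e] at h3
  rw [← h3, H.E_c2 ⟨z, rfl⟩ hf, H.A2' f f (r z z), H.E_iv hf, H.E_l hf]

theorem l_eq_r_E (H : Ax l r) {e f : S} (he : E r e) (hf : E r f) : l e f = r e f := by
  have h1 : r f e = r e (l f e) := by
    have := H.Q1 hf e
    rw [H.E_iv he, H.E_r he, H.T4', H.E_c2 he hf] at this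
    exact this
  have h2 : l e f = r e (l f e) := by
    have := H.t1 e e f
    rw [H.E_r he] at this
    exact this
  rw [h2, ← h1, H.E_c1 he hf]

theorem l_E (H : Ax l r) {f : S} (hf : E r f) (z : S) : l f z = r f (iv l r z) := by
  have hw := H.L4 (l f z)
  rw [H.e_w hf z, H.l_eq_r_E hf ⟨z, rfl⟩] at hw
  -- hw : r (r f (r z z)) (iv (l f z)) = l f z
  have h1 := H.assoc f (r z z) (l f z)
  rw [H.iv_e, hw, ← H.Q1 hf z] at h1
  -- h1 : l f z = r f (iv (r f (iv z)))
  have h2 := H.assoc f f z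
  rw [H.E_iv hf, H.E_r hf] at h2
  rw [h1, ← h2]

theorem T3 (H : Ax l r) (b z : S) : l (iv l r b) z = r b (iv l r z) := by
  have hE : E r (l b b) := ⟨iv l r b, (H.L5 b).symm⟩
  have h1 : l (iv l r b) z = r b (iv l r (l (l b b) z)) := by
    rw [H.T4', H.iv_eq b, H.t1]
  rw [h1, H.l_E hE z]
  have h2 := H.assoc b (l b b) z
  rw [H.iv_f, H.L1] at h2
  exact h2.symm

/-- The multiplication. -/
theorem mul_iv_mul (H : Ax l r) (x : S) :
    r (r x (iv l r (iv l r x))) (iv l r x) = x := by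
  rw [H.iv_iv, H.L4]

end Ax

end Pool.Agent.Q318.ISD
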