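import Pool.Agent.Q318.ISD.Fwd

/-!
# Inverse semigroups and the eight identities
-/

namespace Pool.Agent.Q318.ISD

universe u

variable {S : Type u}

/-- `mul` and `inv` make `S` an inverse semigroup: `mul` is associative and `inv x` is the only
element `y` with `x y x = x` and `y x y = y`. -/
structure IsInverseSemigroup (mul : S → S → S) (inv : S → S) : Prop where
  assoc : ∀ x y z, mul (mul x y) z = mul x (mul y z)
  mul_inv_mul : ∀ x, mul (mul x (inv x)) x = x
  inv_mul_inv : ∀ x, mul (mul (inv x) x) (inv x) = inv x
  unique : ∀ x y, mul (mul x y) x = x → mul (mul y x) y = y → y = inv x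

/-- A semigroup with an involution `inv` (reversing products) such that `x x' x = x` and the
elements `x x'` commute is an inverse semigroup. -/
theorem isInverseSemigroup_of (mul : S → S → S) (inv : S → S)
    (assoc : ∀ x y z, mul (mul x y) z = mul x (mul y z))
    (h1 : ∀ x, mul (mul x (inv x)) x = x) (h2 : ∀ x, inv (inv x) = x)
    (h3 : ∀ x y, inv (mul x y) = mul (inv y) (inv x))
    (h4 : ∀ x y, mul (mul x (inv x)) (mul y (inv y)) = mul (mul y (inv y)) (mul x (inv x))) :
    IsInverseSemigroup mul inv := by
  have h1' : ∀ x, mul (mul (inv x) x) (inv x) = inv x := by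
    intro x
    have := h1 (inv x)
    rwa [h2] at this
  let _ : Semigroup S := { mul := mul, mul_assoc := assoc }
  have m : ∀ x y, mul x y = x * y := fun _ _ => rfl
  simp only [m] at *
  have k1 : ∀ x, x * (inv x * x) = x := fun x => by rw [← mul_assoc]; exact h1 x
  have k1' : ∀ x, inv x * (x * inv x) = inv x := fun x => by rw [← mul_assoc]; exact h1' x
  -- idempotents are fixed by `inv`
  have hp : ∀ p : S, p * p = p → inv p = p := by
    intro p hp
    have hq : inv p * inv p = inv p := by rw [← h3, hp]
    have hc := h4 (inv p) p
    rw [h2] at hc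
    -- (p' p)(p p') = (p p')(p' p)
    have e1 : (inv p * p) * (p * inv p) = inv p := by
      rw [mul_assoc, ← mul_assoc p p, hp]; exact k1' p
    have e2 : (p * inv p) * (inv p * p) = p := by
      rw [mul_assoc, ← mul_assoc (inv p) (inv p), hq]; exact k1 p
    rw [← e1, hc, e2]
  -- idempotents commute
  have hcomm : ∀ p q : S, p * p = p → q * q = q → p * q = q * p := by
    intro p q hp' hq'
    have := h4 p q
    rwa [hp p hp', hp q hq', hp', hq'] at this
  refine ⟨assoc, h1, h1', ?_⟩
  intro x y hx hy
  replace hx : x * y * x = x := hx
  replace hy : y * x * y = y := hy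
  have hx' : x * (y * x) = x := by rw [← mul_assoc]; exact hx
  have hy' : y * (x * y) = y := by rw [← mul_assoc]; exact hy
  have i1 : (x * y) * (x * y) = x * y := by rw [← mul_assoc, hx]
  have i2 : (x * inv x) * (x * inv x) = x * inv x := by rw [← mul_assoc, h1]
  have i3 : (y * x) * (y * x) = y * x := by rw [← mul_assoc, hy]
  have i4 : (inv x * x) * (inv x * x) = inv x * x := by rw [← mul_assoc, h1']
  have c1 := hcomm _ _ i2 i1
  have c2 := hcomm _ _ i4 i3
  calc y = y * (x * y) := hy'.symm
    _ = y * ((x * inv x * x) * y) := by rw [h1]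
    _ = y * ((x * inv x) * (x * y)) := by rw [mul_assoc (x * inv x)]
    _ = y * ((x * y) * (x * inv x)) := by rw [c1]
    _ = (y * (x * y)) * (x * inv x) := by rw [← mul_assoc]
    _ = y * (x * inv x) := by rw [hy']
    _ = (y * x) * inv x := by rw [← mul_assoc]
    _ = (y * x) * (inv x * (x * inv x)) := by rw [k1']
    _ = ((y * x) * (inv x * x)) * inv x := by simp only [mul_assoc]
    _ = ((inv x * x) * (y * x)) * inv x := by rw [c2]
    _ = (inv x * (x * (y * x))) * inv x := by simp only [mul_assoc]
    _ = (inv x * x) * inv x := by rw [hx']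
    _ = inv x := h1' x

/-- The eight identities imply that the bimagma is the division bimagma of an inverse
semigroup. -/
theorem Ax.exists_inv {l r : S → S → S} (H : Ax l r) :
    ∃ (mul : S → S → S) (inv : S → S), IsInverseSemigroup mul inv ∧
      (∀ x y, l x y = mul (inv x) y) ∧ ∀ x y, r x y = mul x (inv y) := by
  refine ⟨fun x y => r x (iv l r y), iv l r, ?_, ?_, ?_⟩
  · refine isInverseSemigroup_of _ _ ?_ ?_ ?_ ?_ ?_
    · exact fun x y z => H.assoc x y z
    · intro x
      show r (r x (iv l r (iv l r x))) (iv l r x) = x
      exact H.mul_iv_mul x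
    · exact fun x => H.iv_iv x
    · intro x y
      show iv l r (r x (iv l r y)) = r (iv l r y) (iv l r (iv l r x))
      rw [H.T4, H.iv_iv]
    · intro x y
      show r (r x (iv l r (iv l r x))) (iv l r (r y (iv l r (iv l r y))))
        = r (r y (iv l r (iv l r y))) (iv l r (r x (iv l r (iv l r x))))
      simp only [H.iv_iv, H.iv_e]
      exact H.c1 x y
  · intro x y
    show l x y = r (iv l r x) (iv l r y)
    have h := H.T3 (iv l r x) y
    rwa [H.iv_iv] at h
  · intro x y
    show r x y = r x (iv l r (iv l r y))
    rw [H.iv_iv]

/-- The division bimagma of an inverse semigroup satisfies the eight identities. -/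
theorem ax_of_inv {mul : S → S → S} {inv : S → S} (h : IsInverseSemigroup mul inv) :
    Ax (fun x y => mul (inv x) y) (fun x y => mul x (inv y)) := by
  obtain ⟨assoc, h1, h1', hu⟩ := h
  let _ : Semigroup S := { mul := mul, mul_assoc := assoc }
  have m : ∀ x y, mul x y = x * y := fun _ _ => rfl
  simp only [m] at *
  have k1 : ∀ x, x * (inv x * x) = x := fun x => by rw [← mul_assoc]; exact h1 x
  have k1' : ∀ x, inv x * (x * inv x) = inv x := fun x => by rw [← mul_assoc]; exact h1' x
  have hii : ∀ x, inv (inv x) = x := fun x => (hu (inv x) x (h1' x) (h1 x)).symm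
  have hid : ∀ e : S, e * e = e → inv e = e := fun e he =>
    (hu e e (by rw [he, he]) (by rw [he, he])).symm
  -- product of idempotents is idempotent
  have hprod : ∀ e f : S, e * e = e → f * f = f → (e * f) * (e * f) = e * f := by
    intro e f he hf
    have he2 : ∀ z, e * (e * z) = e * z := fun z => by rw [← mul_assoc, he]
    have hf2 : ∀ z, f * (f * z) = f * z := fun z => by rw [← mul_assoc, hf]
    set g := inv (e * f) with hg
    have a1 : (e * f) * g * (e * f) = e * f := h1 _
    have a2 : g * (e * f) * g = g := h1' _
    have a1' : e * (f * (g * (e * f))) = e * f := by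
      simpa only [mul_assoc] using a1
    have a2' : g * (e * (f * g)) = g := by
      simpa only [mul_assoc] using a2
    have a2'' : ∀ z, g * (e * (f * (g * z))) = g * z := fun z => by
      conv_rhs => rw [← a2']
      simp only [mul_assoc]
    have b1 : (e * f) * (f * (g * e)) * (e * f) = e * f := by
      simp only [mul_assoc, hf2, he2]
      exact a1'
    have b2 : (f * (g * e)) * (e * f) * (f * (g * e)) = f * (g * e) := by
      simp only [mul_assoc, hf2, he2, a2'']
    have b3 : f * (g * e) = g := hu (e * f) _ b1 b2
    have b4 : g * g = g := by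
      have : (f * (g * e)) * (f * (g * e)) = f * (g * e) := by
        simp only [mul_assoc, a2'']
      rwa [b3] at this
    have b5 : inv g = g := hid g b4
    have b6 : e * f = g := by
      have := hii (e * f)
      rw [← hg, b5] at this
      exact this.symm
    rw [b6]; exact b4
  have hcomm : ∀ e f : S, e * e = e → f * f = f → e * f = f * e := by
    intro e f he hf
    have hp1 := hprod e f he hf
    have hp2 := hprod f e hf he
    have he2 : ∀ z, e * (e * z) = e * z := fun z => by rw [← mul_assoc, he]
    have hf2 : ∀ z, f * (f * z) = f * z := fun z => by rw [← mul_assoc, hf]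
    have hp1' : e * (f * (e * f)) = e * f := by simpa only [mul_assoc] using hp1
    have hp2' : f * (e * (f * e)) = f * e := by simpa only [mul_assoc] using hp2
    have c1 : (e * f) * (f * e) * (e * f) = e * f := by
      simp only [mul_assoc, hf2, he2]; exact hp1'
    have c2 : (f * e) * (e * f) * (f * e) = f * e := by
      simp only [mul_assoc, hf2, he2]; exact hp2'
    have c3 := hu (e * f) (f * e) c1 c2
    rw [hid (e * f) hp1] at c3
    exact c3.symm
  have iR : ∀ x, (x * inv x) * (x * inv x) = x * inv x := fun x => by
    rw [← mul_assoc, h1]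
  have iL : ∀ x, (inv x * x) * (inv x * x) = inv x * x := fun x => by
    rw [← mul_assoc, h1']
  have hmul : ∀ x y, inv (x * y) = inv y * inv x := by
    intro x y
    have c := hcomm _ _ (iR y) (iL x)
    refine (hu (x * y) (inv y * inv x) ?_ ?_).symm
    · calc x * y * (inv y * inv x) * (x * y) = x * ((y * inv y) * (inv x * x)) * y := by
            simp only [mul_assoc]
        _ = x * ((inv x * x) * (y * inv y)) * y := by rw [c]
        _ = (x * inv x * x) * (y * inv y * y) := by simp only [mul_assoc]
        _ = x * y := by rw [h1, h1]
    · calc inv y * inv x * (x * y) * (inv y * inv x)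
            = inv y * ((inv x * x) * (y * inv y)) * inv x := by simp only [mul_assoc]
        _ = inv y * ((y * inv y) * (inv x * x)) * inv x := by rw [c]
        _ = (inv y * y * inv y) * (inv x * x * inv x) := by simp only [mul_assoc]
        _ = inv y * inv x := by rw [h1', h1']
  constructor
  · intro x y z
    simp only [hmul, hii, mul_assoc]
  · intro x
    simp only [hmul, hii]
    exact h1 x
  · intro x
    simp only [hmul, hii]
    exact iR x
  · intro x
    simp only [hmul, hii]
    exact iL x
  · intro x y z w
    simp only [hmul, hii, mul_assoc]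
  · intro x y z w
    simp only [hmul, hii, mul_assoc]
  · intro x y
    simp only [hmul, hii]
    exact hcomm _ _ (iR x) (iR y)
  · intro x y
    simp only [hmul, hii]
    exact hcomm _ _ (iL x) (iL y)

end Pool.Agent.Q318.ISD
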